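import Pool.Agent.W_8dd142_h88.Defs

/-!
# Topological notions in a structure (MP_c26d8e_gt)

`E` is the membership relation of the structure `X`; all quantifiers range over `X`. The notions
`Sub`, `IsOmega`, `IsPair`, `App`, `IsMap`, `IsFin` are those of `Pool.Agent.W_8dd142_h88.Defs`.
For a model of ZFC these are the usual notions of the model.
-/

universe v

namespace CPF

open TKF

section notions

variable {X : Type v} (E : X → X → Prop)

/-- `A` is countable: there is a partial function on `w = ω` whose values include all elements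
of `A`. -/
def IsCtb (w A : X) : Prop := ∃ g, (∀ n x y, App E g n x → App E g n y → x = y) ∧
  ∀ x, E x A → ∃ n, E n w ∧ App E g n x

/-- `τ` is a topology on the set `A`. -/
def IsTop (A τ : X) : Prop := (∀ O, E O τ → Sub E O A) ∧ E A τ ∧
  (∀ O O' P, E O τ → E O' τ → (∀ x, E x P ↔ E x O ∧ E x O') → E P τ) ∧
  ∀ c P, Sub E c τ → (∀ x, E x P ↔ ∃ O, E O c ∧ E x O) → E P τ

/-- `(A, τ)` is a Hausdorff space. -/
def IsHaus (A τ : X) : Prop := IsTop E A τ ∧ ∀ x y, E x A → E y A → x ≠ y →
  ∃ O O', E O τ ∧ E O' τ ∧ E x O ∧ E y O' ∧ ∀ z, E z O → ¬ E z O'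

/-- `f` is a continuous map from `(A, τ)` to `(R, ρ)`. -/
def IsContin (A τ R ρ f : X) : Prop := IsMap E f A R ∧
  ∀ V O, E V ρ → (∀ x, E x O ↔ ∃ y, App E f x y ∧ E y V) → E O τ

/-- `(R, L)` is a nonempty dense complete linear order without endpoints which has a countable
dense subset; `App E L x y` means `x < y`. (These are the orders isomorphic to the real line.) -/
def IsLine (w R L : X) : Prop :=
  (∃ x, E x R) ∧
  (∀ x y, App E L x y → E x R ∧ E y R) ∧
  (∀ x, ¬ App E L x x) ∧
  (∀ x y z, App E L x y → App E L y z → App E L x z) ∧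
  (∀ x y, E x R → E y R → x = y ∨ App E L x y ∨ App E L y x) ∧
  (∀ x, E x R → (∃ y, App E L x y) ∧ ∃ y, App E L y x) ∧
  (∃ Q, Sub E Q R ∧ IsCtb E w Q ∧
    ∀ x y, App E L x y → ∃ q, E q Q ∧ App E L x q ∧ App E L q y) ∧
  ∀ S, Sub E S R → (∃ x, E x S) → (∃ b, E b R ∧ ∀ x, E x S → ¬ App E L b x) →
    ∃ b, E b R ∧ (∀ x, E x S → ¬ App E L b x) ∧
      ∀ c, E c R → (∀ x, E x S → ¬ App E L c x) → ¬ App E L c b

/-- `ρ` is the order topology of `(R, L)`. -/
def IsOrdTop (R L ρ : X) : Prop := ∀ V, E V ρ ↔ Sub E V R ∧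
  ∀ y, E y V → ∃ l u, App E L l y ∧ App E L y u ∧ ∀ z, App E L l z → App E L z u → E z V

/-- `(R, ρ)` is a copy of the real line. -/
def IsReals (w R ρ : X) : Prop := ∃ L, IsLine E w R L ∧ IsOrdTop E R L ρ

/-- The map `f` satisfies the set `B` of conditions `(x, V)`, `V ∈ σ`, meaning `f(x) ∈ V`. -/
def SatB (σ f B : X) : Prop :=
  ∀ b, E b B → ∃ x V y, IsPair E b x V ∧ E V σ ∧ App E f x y ∧ E y V

/-- `Z` is a set of maps with values in a space with the topology `σ`; `O` is an open subset of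
`Z` with the topology of pointwise convergence, i.e. the subspace topology of the product
topology. -/
def IsOpenP (σ Z O : X) : Prop := Sub E O Z ∧ ∀ f, E f O → ∃ B, IsFin E B ∧ SatB E σ f B ∧
  ∀ g, E g Z → SatB E σ g B → E g O

/-- The set of maps `Z` with the topology of pointwise convergence is Lindelöf. -/
def IsLind (w σ Z : X) : Prop := ∀ c, (∀ O, E O c → IsOpenP E σ Z O) →
  (∀ f, E f Z → ∃ O, E O c ∧ E f O) →
    ∃ c', Sub E c' c ∧ IsCtb E w c' ∧ ∀ f, E f Z → ∃ O, E O c' ∧ E f O

/-- All finite powers `A^n` (the set of all maps from `n = {0, …, n - 1}` to `A`) of the space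
`(A, τ)` are hereditarily Lindelöf. -/
def PowHL (w A τ : X) : Prop :=
  ∀ n T, E n w → (∀ s, E s T → IsMap E s n A) → IsLind E w τ T

/-- `(A, τ)` is completely regular: points and closed sets are separated by continuous functions
with values in the real line `(R, ρ)`. -/
def IsCR (A τ R ρ : X) : Prop := ∀ x O, E x O → E O τ → ∃ f a b, IsContin E A τ R ρ f ∧
  E a R ∧ E b R ∧ a ≠ b ∧ App E f x a ∧ ∀ y, E y A → ¬ E y O → App E f y b

/-- The negated form of the question: a Tychonoff space `(A, τ)` with all finite powers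
hereditarily Lindelöf such that no set `Z` of maps from `A` to `ℝ` which contains all continuous
ones is Lindelöf in the topology of pointwise convergence. -/
def NegQ1 : Prop := ∃ w A τ, IsOmega E w ∧ IsHaus E A τ ∧ PowHL E w A τ ∧
  (∃ R ρ, IsReals E w R ρ) ∧ ∀ R ρ, IsReals E w R ρ → IsCR E A τ R ρ ∧
    ∀ Z, (∀ f, E f Z → IsMap E f A R) → (∀ f, IsContin E A τ R ρ f → E f Z) →
      ¬ IsLind E w ρ Z

end notions

end CPF
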