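import Pool.Agent.W_8dd142_h88.Notions
import Pool.Agent.W_c26d8e_h88.Defs

/-!
# The notions are first-order (MP_c26d8e_gt)
-/

universe u

namespace CPF

open IM TKF

theorem IsCtb.fo (i j : ℕ) : FO.{u} (fun _ E v => IsCtb E (v i) (v j)) := by
  unfold IsCtb
  repeat' (with_reducible first | apply IsFin.fo | apply IsMap.fo | apply App.fo | apply IsPair.fo | apply IsUPair.fo | apply IsOmega.fo | apply Sub.fo | apply FO.mem | apply FO.eq | apply FO.and | apply FO.or | apply FO.iff | apply FO.not | apply FO.imp | apply FO.all | apply FO.ex)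

theorem IsTop.fo (i j : ℕ) : FO.{u} (fun _ E v => IsTop E (v i) (v j)) := by
  unfold IsTop
  repeat' (with_reducible first | apply IsCtb.fo | apply IsFin.fo | apply IsMap.fo | apply App.fo | apply IsPair.fo | apply IsUPair.fo | apply IsOmega.fo | apply Sub.fo | apply FO.mem | apply FO.eq | apply FO.and | apply FO.or | apply FO.iff | apply FO.not | apply FO.imp | apply FO.all | apply FO.ex)

theorem IsHaus.fo (i j : ℕ) : FO.{u} (fun _ E v => IsHaus E (v i) (v j)) := by
  unfold IsHaus
  repeat' (with_reducible first | apply IsTop.fo | apply IsCtb.fo | apply IsFin.fo | apply IsMap.fo | apply App.fo | apply IsPair.fo | apply IsUPair.fo | apply IsOmega.fo | apply Sub.fo | apply FO.mem | apply FO.eq | apply FO.and | apply FO.or | apply FO.iff | apply FO.not | apply FO.imp | apply FO.all | apply FO.ex)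

theorem IsContin.fo (i j k l m : ℕ) : FO.{u} (fun _ E v => IsContin E (v i) (v j) (v k) (v l) (v m)) := by
  unfold IsContin
  repeat' (with_reducible first | apply IsHaus.fo | apply IsTop.fo | apply IsCtb.fo | apply IsFin.fo | apply IsMap.fo | apply App.fo | apply IsPair.fo | apply IsUPair.fo | apply IsOmega.fo | apply Sub.fo | apply FO.mem | apply FO.eq | apply FO.and | apply FO.or | apply FO.iff | apply FO.not | apply FO.imp | apply FO.all | apply FO.ex)

theorem IsLine.fo (i j k : ℕ) : FO.{u} (fun _ E v => IsLine E (v i) (v j) (v k)) := by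
  unfold IsLine
  repeat' (with_reducible first | apply IsContin.fo | apply IsHaus.fo | apply IsTop.fo | apply IsCtb.fo | apply IsFin.fo | apply IsMap.fo | apply App.fo | apply IsPair.fo | apply IsUPair.fo | apply IsOmega.fo | apply Sub.fo | apply FO.mem | apply FO.eq | apply FO.and | apply FO.or | apply FO.iff | apply FO.not | apply FO.imp | apply FO.all | apply FO.ex)

theorem IsOrdTop.fo (i j k : ℕ) : FO.{u} (fun _ E v => IsOrdTop E (v i) (v j) (v k)) := by
  unfold IsOrdTop
  repeat' (with_reducible first | apply IsLine.fo | apply IsContin.fo | apply IsHaus.fo | apply IsTop.fo | apply IsCtb.fo | apply IsFin.fo | apply IsMap.fo | apply App.fo | apply IsPair.fo | apply IsUPair.fo | apply IsOmega.fo | apply Sub.fo | apply FO.mem | apply FO.eq | apply FO.and | apply FO.or | apply FO.iff | apply FO.not | apply FO.imp | apply FO.all | apply FO.ex)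

theorem IsReals.fo (i j k : ℕ) : FO.{u} (fun _ E v => IsReals E (v i) (v j) (v k)) := by
  unfold IsReals
  repeat' (with_reducible first | apply IsOrdTop.fo | apply IsLine.fo | apply IsContin.fo | apply IsHaus.fo | apply IsTop.fo | apply IsCtb.fo | apply IsFin.fo | apply IsMap.fo | apply App.fo | apply IsPair.fo | apply IsUPair.fo | apply IsOmega.fo | apply Sub.fo | apply FO.mem | apply FO.eq | apply FO.and | apply FO.or | apply FO.iff | apply FO.not | apply FO.imp | apply FO.all | apply FO.ex)

theorem SatB.fo (i j k : ℕ) : FO.{u} (fun _ E v => SatB E (v i) (v j) (v k)) := by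
  unfold SatB
  repeat' (with_reducible first | apply IsReals.fo | apply IsOrdTop.fo | apply IsLine.fo | apply IsContin.fo | apply IsHaus.fo | apply IsTop.fo | apply IsCtb.fo | apply IsFin.fo | apply IsMap.fo | apply App.fo | apply IsPair.fo | apply IsUPair.fo | apply IsOmega.fo | apply Sub.fo | apply FO.mem | apply FO.eq | apply FO.and | apply FO.or | apply FO.iff | apply FO.not | apply FO.imp | apply FO.all | apply FO.ex)

theorem IsOpenP.fo (i j k : ℕ) : FO.{u} (fun _ E v => IsOpenP E (v i) (v j) (v k)) := by
  unfold IsOpenP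
  repeat' (with_reducible first | apply SatB.fo | apply IsReals.fo | apply IsOrdTop.fo | apply IsLine.fo | apply IsContin.fo | apply IsHaus.fo | apply IsTop.fo | apply IsCtb.fo | apply IsFin.fo | apply IsMap.fo | apply App.fo | apply IsPair.fo | apply IsUPair.fo | apply IsOmega.fo | apply Sub.fo | apply FO.mem | apply FO.eq | apply FO.and | apply FO.or | apply FO.iff | apply FO.not | apply FO.imp | apply FO.all | apply FO.ex)

theorem IsLind.fo (i j k : ℕ) : FO.{u} (fun _ E v => IsLind E (v i) (v j) (v k)) := by
  unfold IsLind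
  repeat' (with_reducible first | apply IsOpenP.fo | apply SatB.fo | apply IsReals.fo | apply IsOrdTop.fo | apply IsLine.fo | apply IsContin.fo | apply IsHaus.fo | apply IsTop.fo | apply IsCtb.fo | apply IsFin.fo | apply IsMap.fo | apply App.fo | apply IsPair.fo | apply IsUPair.fo | apply IsOmega.fo | apply Sub.fo | apply FO.mem | apply FO.eq | apply FO.and | apply FO.or | apply FO.iff | apply FO.not | apply FO.imp | apply FO.all | apply FO.ex)

theorem PowHL.fo (i j k : ℕ) : FO.{u} (fun _ E v => PowHL E (v i) (v j) (v k)) := by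
  unfold PowHL
  repeat' (with_reducible first | apply IsLind.fo | apply IsOpenP.fo | apply SatB.fo | apply IsReals.fo | apply IsOrdTop.fo | apply IsLine.fo | apply IsContin.fo | apply IsHaus.fo | apply IsTop.fo | apply IsCtb.fo | apply IsFin.fo | apply IsMap.fo | apply App.fo | apply IsPair.fo | apply IsUPair.fo | apply IsOmega.fo | apply Sub.fo | apply FO.mem | apply FO.eq | apply FO.and | apply FO.or | apply FO.iff | apply FO.not | apply FO.imp | apply FO.all | apply FO.ex)

theorem IsCR.fo (i j k l : ℕ) : FO.{u} (fun _ E v => IsCR E (v i) (v j) (v k) (v l)) := by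
  unfold IsCR
  repeat' (with_reducible first | apply PowHL.fo | apply IsLind.fo | apply IsOpenP.fo | apply SatB.fo | apply IsReals.fo | apply IsOrdTop.fo | apply IsLine.fo | apply IsContin.fo | apply IsHaus.fo | apply IsTop.fo | apply IsCtb.fo | apply IsFin.fo | apply IsMap.fo | apply App.fo | apply IsPair.fo | apply IsUPair.fo | apply IsOmega.fo | apply Sub.fo | apply FO.mem | apply FO.eq | apply FO.and | apply FO.or | apply FO.iff | apply FO.not | apply FO.imp | apply FO.all | apply FO.ex)

end CPF
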