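import Mathlib

/-!
# Finite conditions (MP_c26d8e_gt)

`I` is an uncountable well-ordered set with countable initial segments, `e a` is injective on the
initial segment of `a`. Admissible functions `y : I → I → ℕ` have `y z a = e a z` for `z < a`.
A condition is a finite set of values of an admissible function.
-/

set_option autoImplicit false

namespace CPF

open Set

/-- The index set with the prescribed functions. -/
class Idx (I : Type) extends LinearOrder I, WellFoundedLT I where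
  /-- the prescribed values -/
  e : I → I → ℕ
  e_inj : ∀ a, InjOn (e a) (Iic a)
  ctb : ∀ a : I, (Iic a).Countable
  unc : ¬ (univ : Set I).Countable
  /-- codes for the elements of the index set by reals -/
  cd : I → Set ℕ
  cd_inj : Function.Injective cd

variable {I : Type} [Idx I]

/-- Admissible functions. -/
def Adm (y : I → I → ℕ) : Prop := ∀ z a, z < a → y z a = Idx.e a z

/-- `y` has the values in `p`. -/
def Sat (y : I → I → ℕ) (p : Finset (I × I × ℕ)) : Prop := ∀ q ∈ p, y q.1 q.2.1 = q.2.2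

/-- Conditions. -/
def Cond (I : Type) [Idx I] : Type := {p : Finset (I × I × ℕ) // ∃ y, Adm y ∧ Sat y p}

instance : Preorder (Cond I) where
  le q p := p.1 ⊆ q.1
  le_refl p := subset_rfl
  le_trans r q p h h' := h'.trans h

theorem Cond.le_iff (p q : Cond I) : q ≤ p ↔ p.1 ⊆ q.1 := Iff.rfl

/-- The trivial condition. -/
def Cond.triv : Cond I := ⟨∅, fun z a => Idx.e a z, fun _ _ _ => rfl,
  fun _ h => absurd h (Finset.notMem_empty _)⟩

theorem Cond.le_triv (p : Cond I) : p ≤ Cond.triv := Finset.empty_subset _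

theorem Sat.mono {y : I → I → ℕ} {p q : Finset (I × I × ℕ)} (h : Sat y q) (hpq : p ⊆ q) :
    Sat y p := fun r hr => h r (hpq hr)

theorem Sat.union [DecidableEq (I × I × ℕ)] {y : I → I → ℕ} {p q : Finset (I × I × ℕ)}
    (h : Sat y p) (h' : Sat y q) : Sat y (p ∪ q) := fun r hr =>
  (Finset.mem_union.1 hr).elim (h r) (h' r)

open Classical in
/-- The condition given by `p` and finitely many further values of `y`. -/
theorem Cond.exists_add (p : Cond I) {y : I → I → ℕ} (hy : Adm y) (hp : Sat y p.1)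
    (S : Finset (I × I)) : ∃ q ≤ p, Sat y q.1 ∧ ∀ s ∈ S, (s.1, s.2, y s.1 s.2) ∈ q.1 := by
  have h1 : Sat y (p.1 ∪ S.image fun s => (s.1, s.2, y s.1 s.2)) := by
    refine Sat.union hp fun r hr => ?_
    obtain ⟨s, _, rfl⟩ := Finset.mem_image.1 hr
    rfl
  exact ⟨⟨_, y, hy, h1⟩, Finset.subset_union_left, h1,
    fun s hs => Finset.mem_union_right _ (Finset.mem_image_of_mem _ hs)⟩

/-- A condition has at most one value at every place. -/
theorem Cond.uniq (p : Cond I) {z a : I} {m n : ℕ} (h : (z, a, m) ∈ p.1) (h' : (z, a, n) ∈ p.1) :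
    m = n := by
  obtain ⟨y, _, hy⟩ := p.2
  exact (hy _ h).symm.trans (hy _ h')

/-- Prescribed values. -/
theorem Cond.det (p : Cond I) {z a : I} {m : ℕ} (h : (z, a, m) ∈ p.1) (hza : z < a) :
    m = Idx.e a z := by
  obtain ⟨y, hy, hp⟩ := p.2
  exact (hp _ h).symm.trans (hy z a hza)

/-- Countable sets of indices are bounded. -/
theorem exists_bound {S : Set I} (hS : S.Countable) : ∃ g : I, ∀ s ∈ S, s < g := by
  by_contra hcon
  push Not at hcon
  apply Idx.unc (I := I)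
  have : (univ : Set I) ⊆ ⋃ s ∈ S, Iic s := by
    intro g _
    obtain ⟨s, hs, hgs⟩ := hcon g
    exact mem_iUnion₂.2 ⟨s, hs, hgs⟩
  exact (hS.biUnion fun s _ => Idx.ctb s).mono this

/-! ### Closing off -/

/-- A triple of a condition, a tuple of points and a finite set of coordinates. -/
abbrev Tri (I : Type) [Idx I] (m : ℕ) : Type := Cond I × (Fin m → I) × Finset I

/-- All indices of the triple are in `A`. -/
def Tri.In {m : ℕ} (t : Tri I m) (A : Set I) : Prop :=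
  (∀ q ∈ t.1.1, q.1 ∈ A ∧ q.2.1 ∈ A) ∧ (∀ k, t.2.1 k ∈ A) ∧ ∀ a ∈ t.2.2, a ∈ A

theorem countable_finsets {α : Type*} {A : Set α} (hA : A.Countable) :
    {p : Finset α | ∀ q ∈ p, q ∈ A}.Countable := by
  have h2 : {p : Set α | p.Finite ∧ p ⊆ A}.Countable := countable_ofPred_finite_subset hA
  refine (h2.preimage (f := fun p : Finset α => (p : Set α)) Finset.coe_injective).mono ?_
  intro p hp
  exact ⟨Finset.finite_toSet p, fun q hq => hp q hq⟩

theorem countable_tri {m : ℕ} {A : Set I} (hA : A.Countable) :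
    {t : Tri I m | t.In A}.Countable := by
  have h1 : {p : Finset (I × I × ℕ) | ∀ q ∈ p, q ∈ A ×ˢ (A ×ˢ (univ : Set ℕ))}.Countable :=
    countable_finsets (hA.prod (hA.prod countable_univ))
  have h2 : (Set.pi univ fun _ : Fin m => A).Countable := Set.countable_univ_pi fun _ => hA
  have h3 : {p : Finset I | ∀ q ∈ p, q ∈ A}.Countable := countable_finsets hA
  have h4 := (h1.prod (h2.prod h3)).preimage
    (f := fun t : Tri I m => (t.1.1, t.2.1, t.2.2)) (by
      rintro ⟨⟨p, hp⟩, s, F⟩ ⟨⟨p', hp'⟩, s', F'⟩ h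
      simp only [Prod.mk.injEq] at h
      obtain ⟨rfl, rfl, rfl⟩ := h
      rfl)
  refine h4.mono ?_
  rintro t ⟨ht1, ht2, ht3⟩
  refine ⟨fun q hq => ⟨(ht1 q hq).1, (ht1 q hq).2, mem_univ _⟩, fun k _ => ht2 k, ht3⟩

/-- The parameters: finitely many values, values of points, an equality pattern. -/
abbrev Par (I : Type) (m : ℕ) : Type :=
  Finset (I × I × ℕ) × Finset (Fin m × I) × Finset (Fin m × I × ℕ) × Finset (Fin m × Fin m)

/-- All indices of the parameter are in `A`. -/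
def Par.In {m : ℕ} (u : Par I m) (A : Set I) : Prop :=
  (∀ q ∈ u.1, q.1 ∈ A ∧ q.2.1 ∈ A) ∧ (∀ q ∈ u.2.1, q.2 ∈ A) ∧ ∀ q ∈ u.2.2.1, q.2.1 ∈ A

theorem countable_par {m : ℕ} {A : Set I} (hA : A.Countable) :
    {u : Par I m | u.In A}.Countable := by
  have h1 : {p : Finset (I × I × ℕ) | ∀ q ∈ p, q ∈ A ×ˢ (A ×ˢ (univ : Set ℕ))}.Countable :=
    countable_finsets (hA.prod (hA.prod countable_univ))
  have h2 : {p : Finset (Fin m × I) | ∀ q ∈ p, q ∈ (univ : Set (Fin m)) ×ˢ A}.Countable :=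
    countable_finsets (countable_univ.prod hA)
  have h3 : {p : Finset (Fin m × I × ℕ) | ∀ q ∈ p,
      q ∈ (univ : Set (Fin m)) ×ˢ (A ×ˢ (univ : Set ℕ))}.Countable :=
    countable_finsets (countable_univ.prod (hA.prod countable_univ))
  have h4 : (univ : Set (Finset (Fin m × Fin m))).Countable := countable_univ
  refine (h1.prod (h2.prod (h3.prod h4))).mono ?_
  rintro u ⟨hu1, hu2, hu3⟩
  exact ⟨fun q hq => ⟨(hu1 q hq).1, (hu1 q hq).2, mem_univ _⟩,
    fun q hq => ⟨mem_univ _, hu2 q hq⟩, fun q hq => ⟨mem_univ _, hu3 q hq, mem_univ _⟩,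
    mem_univ _⟩

/-- The triple matches the parameter. -/
def Match {m : ℕ} (u : Par I m) (t : Tri I m) : Prop :=
  u.1 ⊆ t.1.1 ∧ (∀ q ∈ u.2.1, t.2.1 q.1 = q.2) ∧ (∀ q ∈ u.2.2.1, (t.2.1 q.1, q.2.1, q.2.2) ∈ t.1.1) ∧
    ∀ q ∈ u.2.2.2, t.2.1 q.1 = t.2.1 q.2

/-- A countable initial segment closed under picking witnesses. -/
theorem exists_closed {m : ℕ} (𝒜 : Set (Tri I m)) : ∃ A : Set I, A.Countable ∧
    (∀ a ∈ A, ∀ b ≤ a, b ∈ A) ∧ ∀ u : Par I m, u.In A → (∃ t ∈ 𝒜, Match u t) →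
      ∃ t ∈ 𝒜, Match u t ∧ t.In A := by
  classical
  by_cases hne : Nonempty (Tri I m)
  swap
  · exact ⟨∅, countable_empty, fun a ha => absurd ha (notMem_empty a),
      fun u _ ⟨t, _⟩ => absurd ⟨t⟩ hne⟩
  -- witnesses
  have h1 : ∀ u : Par I m, ∃ t : Tri I m, (∃ t ∈ 𝒜, Match u t) → t ∈ 𝒜 ∧ Match u t := by
    intro u
    by_cases h : ∃ t ∈ 𝒜, Match u t
    · obtain ⟨t, ht⟩ := h
      exact ⟨t, fun _ => ht⟩
    · exact ⟨hne.some, fun h' => absurd h' h⟩
  choose pick hpick using h1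
  -- the indices of a triple
  let ind : Tri I m → Set I := fun t =>
    (⋃ q ∈ t.1.1, ({q.1, q.2.1} : Set I)) ∪ range t.2.1 ∪ (t.2.2 : Set I)
  have hind : ∀ t, (ind t).Countable := fun t =>
    ((t.1.1.countable_toSet.biUnion fun q _ => (Set.toFinite _).countable).union
      (countable_range _)).union t.2.2.countable_toSet
  have hind' : ∀ (t : Tri I m) (A : Set I), ind t ⊆ A → t.In A := by
    intro t A h
    refine ⟨fun q hq => ⟨h (Or.inl (Or.inl (mem_iUnion₂.2 ⟨q, hq, by simp⟩))),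
      h (Or.inl (Or.inl (mem_iUnion₂.2 ⟨q, hq, by simp⟩)))⟩, fun k => h (Or.inl (Or.inr ⟨k, rfl⟩)),
      fun a ha => h (Or.inr ha)⟩
  let next : Set I → Set I := fun A => A ∪ ⋃ a ∈ (A ∪ ⋃ u ∈ {u : Par I m | u.In A}, ind (pick u)),
    Iic a
  have hnext : ∀ A : Set I, A.Countable → (next A).Countable := by
    intro A hA
    refine hA.union (Countable.biUnion ?_ fun a _ => Idx.ctb a)
    exact hA.union ((countable_par hA).biUnion fun u _ => hind _)
  let D : ℕ → Set I := fun n => next^[n] ∅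
  have hDsucc : ∀ n, D (n + 1) = next (D n) := fun n => Function.iterate_succ_apply' _ _ _
  have hDc : ∀ n, (D n).Countable := by
    intro n
    induction n with
    | zero => exact countable_empty
    | succ n ih =>
      rw [hDsucc]
      exact hnext _ ih
  have hmono : Monotone D := by
    apply monotone_nat_of_le_succ
    intro n
    rw [hDsucc]
    exact subset_union_left
  refine ⟨⋃ n, D n, countable_iUnion hDc, ?_, ?_⟩
  · intro a ha b hb
    obtain ⟨n, hn⟩ := mem_iUnion.1 ha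
    refine mem_iUnion.2 ⟨n + 1, ?_⟩
    rw [hDsucc]
    exact Or.inr (mem_iUnion₂.2 ⟨a, Or.inl hn, hb⟩)
  · intro u hu hex
    -- the parameter lives in one stage
    have key : ∀ {α : Type} (S : Finset α) (f : α → I), (∀ q ∈ S, f q ∈ ⋃ n, D n) →
        ∃ n, ∀ q ∈ S, f q ∈ D n := by
      intro α S f h
      have h2 : ∀ q, ∃ n, q ∈ S → f q ∈ D n := by
        intro q
        by_cases hq : q ∈ S
        · obtain ⟨n, hn⟩ := mem_iUnion.1 (h q hq)
          exact ⟨n, fun _ => hn⟩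
        · exact ⟨0, fun h => absurd h hq⟩
      choose N hN using h2
      exact ⟨S.sup N, fun q hq => hmono (Finset.le_sup hq) (hN q hq)⟩
    obtain ⟨n1, h1⟩ := key u.1 (fun q => q.1) fun q hq => (hu.1 q hq).1
    obtain ⟨n2, h2⟩ := key u.1 (fun q => q.2.1) fun q hq => (hu.1 q hq).2
    obtain ⟨n3, h3⟩ := key u.2.1 (fun q => q.2) fun q hq => hu.2.1 q hq
    obtain ⟨n4, h4⟩ := key u.2.2.1 (fun q => q.2.1) fun q hq => hu.2.2 q hq
    let n := max (max n1 n2) (max n3 n4)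
    have hin : u.In (D n) :=
      ⟨fun q hq => ⟨hmono (le_max_of_le_left (le_max_left n1 n2)) (h1 q hq),
        hmono (le_max_of_le_left (le_max_right n1 n2)) (h2 q hq)⟩,
        fun q hq => hmono (le_max_of_le_right (le_max_left n3 n4)) (h3 q hq),
        fun q hq => hmono (le_max_of_le_right (le_max_right n3 n4)) (h4 q hq)⟩
    obtain ⟨ht1, ht2⟩ := hpick u hex
    refine ⟨pick u, ht1, ht2, hind' _ _ ?_⟩
    intro a ha
    refine mem_iUnion.2 ⟨n + 1, ?_⟩
    rw [hDsucc]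
    exact Or.inr (mem_iUnion₂.2 ⟨a, Or.inr (mem_iUnion₂.2 ⟨u, hin, ha⟩), le_refl a⟩)

/-- **The key lemma.** -/
theorem exists_countable {m : ℕ} (𝒜 : Set (Tri I m)) : ∃ D ⊆ 𝒜, D.Countable ∧
    ∀ t ∈ 𝒜, ∃ t' ∈ D, ∃ y : I → I → ℕ, Adm y ∧ Sat y t.1.1 ∧ Sat y t'.1.1 ∧
      ∀ k, ∀ a ∈ t'.2.2, y (t.2.1 k) a = y (t'.2.1 k) a := by
  classical
  obtain ⟨A, hA, hlow, hcl⟩ := exists_closed 𝒜
  refine ⟨{t | t ∈ 𝒜 ∧ t.In A}, fun t ht => ht.1, (countable_tri hA).mono fun t ht => ht.2, ?_⟩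
  intro t ht
  obtain ⟨y₁, hy₁, hs₁⟩ := t.1.2
  -- the parameter of `t` over `A`
  let u : Par I m := (t.1.1.filter fun q => q.1 ∈ A ∧ q.2.1 ∈ A,
    (Finset.univ.filter fun k => t.2.1 k ∈ A).image fun k => (k, t.2.1 k),
    Finset.univ.biUnion fun k => ((t.1.1.filter fun q => q.1 = t.2.1 k ∧ q.2.1 ∈ A).image
      fun q => (k, q.2.1, q.2.2)),
    Finset.univ.filter fun q => t.2.1 q.1 = t.2.1 q.2)
  have hu1 : ∀ q, q ∈ u.1 ↔ q ∈ t.1.1 ∧ q.1 ∈ A ∧ q.2.1 ∈ A := fun q => Finset.mem_filter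
  have hu2 : ∀ k i, (k, i) ∈ u.2.1 ↔ i = t.2.1 k ∧ i ∈ A := by
    intro k i
    simp only [u, Finset.mem_image, Finset.mem_filter, Finset.mem_univ, true_and, Prod.mk.injEq]
    constructor
    · rintro ⟨k', h1, rfl, rfl⟩
      exact ⟨rfl, h1⟩
    · rintro ⟨rfl, h1⟩
      exact ⟨k, h1, rfl, rfl⟩
  have hu3 : ∀ k a n, (k, a, n) ∈ u.2.2.1 ↔ (t.2.1 k, a, n) ∈ t.1.1 ∧ a ∈ A := by
    intro k a n
    simp only [u, Finset.mem_biUnion, Finset.mem_image, Finset.mem_filter, Finset.mem_univ,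
      true_and, Prod.mk.injEq]
    constructor
    · rintro ⟨k', ⟨z, a', n'⟩, ⟨h1, h2, h3⟩, rfl, rfl, rfl⟩
      simp only at h2 h3
      subst h2
      exact ⟨h1, h3⟩
    · rintro ⟨h1, h2⟩
      exact ⟨k, (t.2.1 k, a, n), ⟨h1, rfl, h2⟩, rfl, rfl, rfl⟩
  have hu4 : ∀ k l, (k, l) ∈ u.2.2.2 ↔ t.2.1 k = t.2.1 l := by
    intro k l
    simp only [u, Finset.mem_filter, Finset.mem_univ, true_and]
  have hin : u.In A := by
    refine ⟨fun q hq => ((hu1 q).1 hq).2, ?_, ?_⟩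
    · rintro ⟨k, i⟩ hq
      exact ((hu2 k i).1 hq).2
    · rintro ⟨k, a, n⟩ hq
      exact ((hu3 k a n).1 hq).2
  have hmatch : Match u t := by
    refine ⟨fun q hq => ((hu1 q).1 hq).1, ?_, ?_, ?_⟩
    · rintro ⟨k, i⟩ hq
      exact ((hu2 k i).1 hq).1.symm
    · rintro ⟨k, a, n⟩ hq
      exact ((hu3 k a n).1 hq).1
    · rintro ⟨k, l⟩ hq
      exact (hu4 k l).1 hq
  obtain ⟨t', ht', ⟨hm1, hm2, hm3, hm4⟩, hin'⟩ := hcl u hin ⟨t, ht, hmatch⟩
  obtain ⟨y₂, hy₂, hs₂⟩ := t'.1.2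
  -- the common function
  let y : I → I → ℕ := fun z a =>
    if z ∈ A then y₂ z a
    else if a ∈ A then (if h : ∃ k, t.2.1 k = z then y₂ (t'.2.1 h.choose) a else y₁ z a)
    else y₁ z a
  have hyA : ∀ z a, z ∈ A → y z a = y₂ z a := fun z a hz => if_pos hz
  have hyB : ∀ z a, z ∉ A → a ∉ A → y z a = y₁ z a := fun z a hz ha => by
    simp only [y, if_neg hz, if_neg ha]
  have hyC : ∀ k a, t.2.1 k ∉ A → a ∈ A → y (t.2.1 k) a = y₂ (t'.2.1 k) a := by
    intro k a hz ha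
    have hex : ∃ k', t.2.1 k' = t.2.1 k := ⟨k, rfl⟩
    simp only [y, if_neg hz, if_pos ha, dif_pos hex]
    rw [hm4 (hex.choose, k) ((hu4 _ _).2 hex.choose_spec)]
  have hyD : ∀ z a, z ∉ A → (¬ ∃ k, t.2.1 k = z) → y z a = y₁ z a := by
    intro z a hz hk
    by_cases ha : a ∈ A
    · simp only [y, if_neg hz, if_pos ha, dif_neg hk]
    · exact hyB z a hz ha
  have hval : ∀ k, ∀ a ∈ A, y (t.2.1 k) a = y₂ (t'.2.1 k) a := by
    intro k a ha
    by_cases hk : t.2.1 k ∈ A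
    · have h1 : t'.2.1 k = t.2.1 k := hm2 (k, t.2.1 k) ((hu2 k _).2 ⟨rfl, hk⟩)
      rw [hyA _ _ hk, h1]
    · exact hyC k a hk ha
  refine ⟨t', ⟨ht', hin'⟩, y, ?_, ?_, ?_, ?_⟩
  · intro z a hza
    by_cases hz : z ∈ A
    · rw [hyA z a hz]
      exact hy₂ z a hza
    · have ha : a ∉ A := fun ha => hz (hlow a ha z hza.le)
      rw [hyB z a hz ha]
      exact hy₁ z a hza
  · rintro ⟨z, a, n⟩ hq
    change y z a = n
    by_cases hz : z ∈ A
    · rw [hyA z a hz]
      by_cases ha : a ∈ A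
      · exact hs₂ (z, a, n) (hm1 ((hu1 _).2 ⟨hq, hz, ha⟩))
      · have hza : z < a := by
          by_contra h
          exact ha (hlow z hz a (not_lt.1 h))
        rw [hy₂ z a hza, ← hy₁ z a hza]
        exact hs₁ (z, a, n) hq
    · by_cases ha : a ∈ A
      · by_cases hk : ∃ k, t.2.1 k = z
        · obtain ⟨k, rfl⟩ := hk
          rw [hyC k a hz ha]
          exact hs₂ _ (hm3 (k, a, n) ((hu3 k a n).2 ⟨hq, ha⟩))
        · rw [hyD z a hz hk]
          exact hs₁ (z, a, n) hq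
      · rw [hyB z a hz ha]
        exact hs₁ (z, a, n) hq
  · rintro ⟨z, a, n⟩ hq
    change y z a = n
    rw [hyA z a (hin'.1 _ hq).1]
    exact hs₂ (z, a, n) hq
  · intro k a ha
    rw [hval k a (hin'.2.2 a ha), hyA _ _ (hin'.2.1 k)]

end CPF
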