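import Pool.Agent.W_8dd142_h88.More
import Pool.Agent.W_c26d8e_h88.Notions
import Pool.Agent.W_c26d8e_h88.Cond

/-!
# The points and the generic function (MP_c26d8e_gt)
-/

namespace CPF

open IM IM.BSet BVM TKF

variable {I : Type} [Idx I]

/-- The regular open algebra of the conditions. -/
abbrev RP (I : Type) [Idx I] : Type := RO (Cond I)

/-- The names of the points. -/
noncomputable def pnt (i : I) : BSet (RP I) := rl (Idx.cd i)

theorem disj_pnt : Disj (pnt : I → BSet (RP I)) := fun i j hij =>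
  disj_rl _ _ fun h => hij (Idx.cd_inj h)

/-- The name of the set of all points. -/
noncomputable def nA (I : Type) [Idx I] : BSet (RP I) := nall (pnt : I → BSet (RP I))

/-- The value at `(z, a)` is `n`. -/
def Has (z a : I) (n : ℕ) (p : Cond I) : Prop := (z, a, n) ∈ p.1

theorem Has.mono {z a : I} {n : ℕ} (p q : Cond I) (h : Has z a n p) (hq : q ≤ p) : Has z a n q :=
  hq h

/-- The name of the generic function. -/
noncomputable def nG (I : Type) [Idx I] : BSet (RP I) :=
  nsub (fun i : I × I × ℕ => prB (prB (pnt i.1) (pnt i.2.1)) (natB i.2.2))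
    fun i => tvp (Has i.1 i.2.1 i.2.2)

/-- `G(z, a) = n` in a structure. -/
def GVal {X : Type*} (E : X → X → Prop) (G z a n : X) : Prop := ∃ p, IsPair E p z a ∧ App E G p n

theorem GVal.fo (i j k l : ℕ) : FO.{0} (fun _ E v => GVal E (v i) (v j) (v k) (v l)) := by
  unfold GVal
  repeat' (with_reducible first | apply App.fo | apply IsPair.fo | apply FO.and | apply FO.ex)

/-- `G(x, a) = G(y, a)` in a structure. -/
def SameVal {X : Type*} (E : X → X → Prop) (G x y a : X) : Prop :=
  ∃ n, GVal E G x a n ∧ GVal E G y a n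

theorem SameVal.fo (i j k l : ℕ) : FO.{0} (fun _ E v => SameVal E (v i) (v j) (v k) (v l)) := by
  unfold SameVal
  repeat' (with_reducible first | apply GVal.fo | apply FO.and | apply FO.ex)

/-- `τ` is the topology on `A` induced by the coordinate functions `G(·, a)`, `a ∈ A`. -/
def IsTau {X : Type*} (E : X → X → Prop) (A G τ : X) : Prop := ∀ O, E O τ ↔ Sub E O A ∧
  ∀ x, E x O → ∃ F, IsFin E F ∧ Sub E F A ∧
    ∀ y, E y A → (∀ a, E a F → SameVal E G x y a) → E y O

theorem IsTau.fo (i j k : ℕ) : FO.{0} (fun _ E v => IsTau E (v i) (v j) (v k)) := by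
  unfold IsTau
  repeat' (with_reducible first | apply SameVal.fo | apply IsFin.fo | apply Sub.fo | apply FO.mem | apply FO.and | apply FO.iff | apply FO.imp | apply FO.all | apply FO.ex)

section

variable {lam : RP I → Prop} {hl : IsUF lam}

theorem prB_E {G x y n : BSet (RP I)} :
    GVal (E hl) (val hl G) (val hl x) (val hl y) (val hl n) ↔
      E hl (val hl (prB (prB x y) n)) (val hl G) := by
  constructor
  · rintro ⟨p, hp, h⟩
    obtain ⟨p, rfl⟩ := exists_name p
    rw [isPair_val] at hp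
    rw [hp, app_val] at h
    exact h
  · intro h
    exact ⟨val hl (prB x y), isPair_val.2 rfl, app_val.2 h⟩

theorem disj_G : Disj fun i : I × I × ℕ => prB (prB (pnt i.1) (pnt i.2.1)) (natB i.2.2) := by
  intro i j hij
  rw [beq_eq_bot_iff]
  intro lam hl h
  obtain ⟨h1, h2⟩ := prB_inj h
  obtain ⟨h3, h4⟩ := prB_inj h1
  have e1 : i.1 = j.1 := by
    by_contra hne
    exact beq_eq_bot_iff.1 (disj_pnt _ _ hne) lam hl h3
  have e2 : i.2.1 = j.2.1 := by
    by_contra hne
    exact beq_eq_bot_iff.1 (disj_pnt _ _ hne) lam hl h4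
  exact hij (Prod.ext e1 (Prod.ext e2 (natB_inj h2)))

/-- Values of the generic function at standard points. -/
theorem gval_iff {z a : I} {n : ℕ} :
    GVal (E hl) (val hl (nG I)) (val hl (pnt z)) (val hl (pnt a)) (val hl (natB n)) ↔
      lam (tvp (Has z a n)) := by
  rw [prB_E]
  exact E_nsub_c (i := (z, a, n)) disj_G

/-- Forced values. -/
theorem gval_of {p : Cond I} (hp : lam (gen p)) {z a : I} {n : ℕ} (h : (z, a, n) ∈ p.1) :
    GVal (E hl) (val hl (nG I)) (val hl (pnt z)) (val hl (pnt a)) (val hl (natB n)) :=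
  gval_iff.2 (hl.mono (gen_le_tvp (φ := Has z a n) h) hp)

/-- Conditions can be extended to have a value at a given place. -/
theorem Cond.exists_val (p : Cond I) (z a : I) : ∃ q ≤ p, ∃ n, Has z a n q := by
  obtain ⟨y, hy, hp⟩ := p.2
  obtain ⟨q, hq, _, h⟩ := p.exists_add hy hp {(z, a)}
  exact ⟨q, hq, _, h (z, a) (Finset.mem_singleton_self _)⟩

theorem triv_mem (hl : IsUF lam) : lam (gen (Cond.triv : Cond I)) := by
  refine hl.mono ?_ hl.top
  intro q _
  exact RO.mem_lower (mem_gen Cond.triv) q.le_triv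

/-- Two standard values at the same place are equal. -/
theorem tvp_uniq (hl : IsUF lam) {z a : I} {m n : ℕ} (h : lam (tvp (Has z a m)))
    (h' : lam (tvp (Has z a n))) : m = n := by
  obtain ⟨p, hp⟩ := exists_gen (a := tvp (Has z a m) ⊓ tvp (Has z a n)) (by
    intro h0
    apply hl.bot
    rw [← h0]
    exact hl.inf h h')
  obtain ⟨q, hq, h1⟩ := (gen_le_tvp_iff Has.mono).1 (hp.trans inf_le_left) p le_rfl
  obtain ⟨r, hr, h2⟩ := (gen_le_tvp_iff Has.mono).1 (hp.trans inf_le_right) q hq
  exact r.uniq (Has.mono q r h1 hr) h2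

/-- Values of the generic function are natural numbers, arguments are points. -/
theorem gval_mem {x y n : X hl} (h : GVal (E hl) (val hl (nG I)) x y n) :
    E hl x (val hl (nA I)) ∧ E hl y (val hl (nA I)) ∧ E hl n (val hl (omB _)) := by
  obtain ⟨x, rfl⟩ := exists_name x
  obtain ⟨y, rfl⟩ := exists_name y
  obtain ⟨n, rfl⟩ := exists_name n
  have h1 := prB_E.1 h
  refine all_nsub (Q := fun _ E v => ∀ p, IsPair E p (v 1) (v 2) → IsPair E (v 0) p (v 3) →
      E (v 1) (v 4) ∧ E (v 2) (v 4) ∧ E (v 3) (v 5)) (v := ps [x, y, n, nA I, omB _])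
    (by repeat' (with_reducible first | apply IsPair.fo | apply FO.mem | apply FO.and | apply FO.imp | apply FO.all))
    ⊤ ?_ hl hl.top h1 (val hl (prB x y)) (isPair_val.2 rfl) (isPair_val.2 rfl)
  intro i lam hl _ _ p hp1 hp2
  obtain ⟨p, rfl⟩ := exists_name p
  have hp1 : val hl p = val hl (prB x y) := isPair_val.1 hp1
  have hp2 : val hl (prB (prB (pnt i.1) (pnt i.2.1)) (natB i.2.2)) = val hl (prB p n) :=
    isPair_val.1 hp2
  obtain ⟨h3, h4⟩ := prB_inj hp2
  rw [hp1] at h3
  obtain ⟨h5, h6⟩ := prB_inj h3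
  refine ⟨?_, ?_, ?_⟩
  · change E hl (val hl x) (val hl (nA I))
    rw [← h5]
    exact E_nall_c i.1
  · change E hl (val hl y) (val hl (nA I))
    rw [← h6]
    exact E_nall_c i.2.1
  · change E hl (val hl n) (val hl (omB _))
    rw [← h4]
    exact E_nall_c i.2.2

/-- The generic function is a function. -/
theorem gval_uniq {x y m n : X hl} (h : GVal (E hl) (val hl (nG I)) x y m)
    (h' : GVal (E hl) (val hl (nG I)) x y n) : m = n := by
  obtain ⟨hx, hy, hm⟩ := gval_mem h
  obtain ⟨_, _, hn⟩ := gval_mem h'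
  refine all_nall (c := (pnt : I → BSet (RP I))) (Q := fun _ E v => ∀ y m n, E y (v 1) →
      E m (v 2) → E n (v 2) → GVal E (v 3) (v 0) y m → GVal E (v 3) (v 0) y n → m = n)
    (v := ps [nA I, omB _, nG I])
    (by repeat' (with_reducible first | apply GVal.fo | apply FO.mem | apply FO.eq | apply FO.and | apply FO.imp | apply FO.all))
    ⊤ ?_ hl hl.top hx y m n hy hm hn h h'
  intro z lam hl _ y m n hy hm hn h h'
  refine all_nall (c := (pnt : I → BSet (RP I))) (Q := fun _ E v => ∀ m n,
      E m (v 1) → E n (v 1) → GVal E (v 2) (v 3) (v 0) m → GVal E (v 2) (v 3) (v 0) n → m = n)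
    (v := ps [omB _, nG I, pnt z])
    (by repeat' (with_reducible first | apply GVal.fo | apply FO.mem | apply FO.eq | apply FO.and | apply FO.imp | apply FO.all))
    ⊤ ?_ hl hl.top hy m n hm hn h h'
  intro a lam hl _ m n hm hn h h'
  refine all_nat (Q := fun _ E v => ∀ n, E n (v 1) → GVal E (v 2) (v 3) (v 4) (v 0) →
      GVal E (v 2) (v 3) (v 4) n → v 0 = n)
    (v := ps [omB _, nG I, pnt z, pnt a])
    (by repeat' (with_reducible first | apply GVal.fo | apply FO.mem | apply FO.eq | apply FO.and | apply FO.imp | apply FO.all))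
    ⊤ ?_ hl hl.top hm n hn h h'
  intro m lam hl _ n hn h h'
  refine all_nat (Q := fun _ E v => GVal E (v 1) (v 2) (v 3) (v 4) →
      GVal E (v 1) (v 2) (v 3) (v 0) → v 4 = v 0)
    (v := ps [nG I, pnt z, pnt a, natB m])
    (by repeat' (with_reducible first | apply GVal.fo | apply FO.mem | apply FO.eq | apply FO.and | apply FO.imp | apply FO.all))
    ⊤ ?_ hl hl.top hn h h'
  intro n lam hl _ h h'
  have h1 := gval_iff.1 h
  have h2 := gval_iff.1 h'
  have h3 := tvp_uniq hl h1 h2
  change val hl (natB m) = val hl (natB n)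
  rw [h3]

/-- The generic function is total. -/
theorem gval_total {x y : X hl} (hx : E hl x (val hl (nA I))) (hy : E hl y (val hl (nA I))) :
    ∃ n, E hl n (val hl (omB _)) ∧ GVal (E hl) (val hl (nG I)) x y n := by
  refine all_nall (c := (pnt : I → BSet (RP I))) (Q := fun _ E v => ∀ y, E y (v 1) →
      ∃ n, E n (v 2) ∧ GVal E (v 3) (v 0) y n)
    (v := ps [nA I, omB _, nG I])
    (by repeat' (with_reducible first | apply GVal.fo | apply FO.mem | apply FO.eq | apply FO.and | apply FO.imp | apply FO.all | apply FO.ex))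
    ⊤ ?_ hl hl.top hx y hy
  intro z lam hl _ y hy
  refine all_nall (c := (pnt : I → BSet (RP I))) (Q := fun _ E v =>
      ∃ n, E n (v 1) ∧ GVal E (v 2) (v 3) (v 0) n)
    (v := ps [omB _, nG I, pnt z])
    (by repeat' (with_reducible first | apply GVal.fo | apply FO.mem | apply FO.eq | apply FO.and | apply FO.imp | apply FO.all | apply FO.ex))
    ⊤ ?_ hl hl.top hy
  intro a lam hl _
  refine of_dense (Q := fun _ E v => ∃ n, E n (v 0) ∧ GVal E (v 1) (v 2) (v 3) n)
    (v := ps [omB _, nG I, pnt z, pnt a])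
    (by repeat' (with_reducible first | apply GVal.fo | apply FO.mem | apply FO.eq | apply FO.and | apply FO.imp | apply FO.all | apply FO.ex))
    ?_ hl (triv_mem hl)
  intro q _
  obtain ⟨r, hr, n, hn⟩ := q.exists_val z a
  exact ⟨r, hr, fun lam hl hlam => ⟨val hl (natB n), E_nall_c n, gval_of hlam hn⟩⟩

/-- Prescribed values. -/
theorem gval_det {z a : I} (hza : z < a) :
    GVal (E hl) (val hl (nG I)) (val hl (pnt z)) (val hl (pnt a))
      (val hl (natB (Idx.e a z))) := by
  refine of_dense (Q := fun _ E v => GVal E (v 0) (v 1) (v 2) (v 3))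
    (v := ps [nG I, pnt z, pnt a, natB (Idx.e a z)]) (GVal.fo 0 1 2 3) ?_ hl (triv_mem hl)
  intro q _
  obtain ⟨r, hr, n, hn⟩ := q.exists_val z a
  refine ⟨r, hr, fun lam hl hlam => ?_⟩
  have h1 : n = Idx.e a z := r.det hn hza
  have h2 := gval_of (hl := hl) hlam hn
  rw [h1] at h2
  exact h2

/-- `SameVal` from a condition. -/
theorem sameVal_of {p : Cond I} (hp : lam (gen p)) {z z' a : I} {n : ℕ} (h : (z, a, n) ∈ p.1)
    (h' : (z', a, n) ∈ p.1) :
    SameVal (E hl) (val hl (nG I)) (val hl (pnt z)) (val hl (pnt z')) (val hl (pnt a)) :=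
  ⟨val hl (natB n), gval_of hp h, gval_of hp h'⟩

theorem sameVal_refl {x a : X hl} (hx : E hl x (val hl (nA I))) (ha : E hl a (val hl (nA I))) :
    SameVal (E hl) (val hl (nG I)) x x a := by
  obtain ⟨n, _, hn⟩ := gval_total hx ha
  exact ⟨n, hn, hn⟩

end

end CPF
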