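import Pool.Agent.W_c26d8e_h88.Tup

/-!
# All finite powers are hereditarily Lindelöf (MP_c26d8e_gt)
-/

namespace CPF

open IM IM.BSet BVM TKF

variable {I : Type} [Idx I]

/-- `c` is a family of relatively open sets of `T` which covers `T` and has no countable
subcover. -/
def BadC {X : Type*} (E : X → X → Prop) (w A G τ n T c : X) : Prop := IsTau E A G τ ∧
  (∀ s, E s T → IsMap E s n A) ∧ (∀ O, E O c → IsOpenP E τ T O) ∧
  (∀ f, E f T → ∃ O, E O c ∧ E f O) ∧
  ¬ ∃ c', Sub E c' c ∧ IsCtb E w c' ∧ ∀ f, E f T → ∃ O, E O c' ∧ E f O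

theorem BadC.fo (i j k l m n o : ℕ) :
    FO.{0} (fun _ E v => BadC E (v i) (v j) (v k) (v l) (v m) (v n) (v o)) := by
  unfold BadC
  repeat' (with_reducible first | apply IsTau.fo | apply IsOpenP.fo | apply IsCtb.fo | apply IsMap.fo | apply Sub.fo | apply FO.mem | apply FO.and | apply FO.not | apply FO.imp | apply FO.all | apply FO.ex)

/-- The element `b = (k, V)` of a finite set of conditions on `s`: `V` is a neighbourhood of
`s(k)` containing the basic neighbourhood given by the coordinates in `F`. -/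
def Nb {X : Type*} (E : X → X → Prop) (A G τ b k x F : X) : Prop :=
  ∃ V, IsPair E b k V ∧ E V τ ∧ ∀ y, E y A → (∀ a, E a F → SameVal E G x y a) → E y V

theorem Nb.fo (i j k l m n o : ℕ) :
    FO.{0} (fun _ E v => Nb E (v i) (v j) (v k) (v l) (v m) (v n) (v o)) := by
  unfold Nb
  repeat' (with_reducible first | apply IsPair.fo | apply SameVal.fo | apply FO.mem | apply FO.and | apply FO.not | apply FO.imp | apply FO.all | apply FO.ex)

/-- `U` is a name of a member of the cover which contains all tuples of `T` with the same values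
as `s` at the coordinates in `F`. -/
def Good {m : ℕ} (T c U : BSet (RP I)) (r : Cond I) (s : Fin m → I) (F : Finset I) : Prop :=
  Fc r (fun _ E v => E (v 0) (v 1)) (ps [U, c]) ∧
  ∀ q ≤ r, ∀ s' : Fin m → I, (∀ k, ∀ a ∈ F, ∃ n, (s k, a, n) ∈ q.1 ∧ (s' k, a, n) ∈ q.1) →
    Fc q (fun _ E v => E (v 0) (v 1)) (ps [tup s', T]) →
    Fc q (fun _ E v => E (v 0) (v 1)) (ps [tup s', U])

theorem exists_good {m : ℕ} {p : Cond I} {T c τ : BSet (RP I)}
    (hp : ∀ (lam : RP I → Prop) (hl : IsUF lam), lam (gen p) →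
      BadC (E hl) (val hl (omB _)) (val hl (nA I)) (val hl (nG I)) (val hl τ) (val hl (natB m))
        (val hl T) (val hl c))
    {r : Cond I} (hr : r ≤ p) {s : Fin m → I}
    (hs : Fc r (fun _ E v => E (v 0) (v 1)) (ps [tup s, T])) :
    ∃ r' ≤ r, ∃ (F : Finset I) (U : BSet (RP I)), Good T c U r' s F := by
  classical
  -- a member of the cover
  obtain ⟨U, hU⟩ := exists_witness (Q := fun _ E v => E (v 0) (v 1) ∧ E (v 2) (v 0))
    (by repeat' (with_reducible first | apply FO.mem | apply FO.and))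
    (ps [c, tup s]) (gen r) (by
      intro lam hl hlam
      obtain ⟨O, hO, hsO⟩ := (hp lam hl (hl.mono (gen_mono hr) hlam)).2.2.2.1 _ (hs lam hl hlam)
      exact ⟨O, hO, hsO⟩)
  -- a finite set of conditions
  obtain ⟨B, hB⟩ := exists_witness (Q := fun _ E v => IsFin E (v 0) ∧ SatB E (v 1) (v 2) (v 0) ∧
      ∀ g, E g (v 3) → SatB E (v 1) g (v 0) → E g (v 4))
    (by repeat' (with_reducible first | apply IsFin.fo | apply SatB.fo | apply FO.mem | apply FO.imp | apply FO.all | apply FO.and))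
    (ps [τ, tup s, T, U]) (gen r) (by
      intro lam hl hlam
      obtain ⟨h1, h2⟩ := hU lam hl hlam
      exact ((hp lam hl (hl.mono (gen_mono hr) hlam)).2.2.1 _ h1).2 _ h2)
  -- decide the finite set
  obtain ⟨q, hq, S, hS⟩ : ∃ q ≤ r, ∃ S : Finset B.ty, gen q ≤ beq B (nchk B.fn (S : Set B.ty)) := by
    have h1 : gen r ≤ ⨆ S : Finset B.ty, beq B (nchk B.fn (S : Set B.ty)) := by
      rw [le_iff_uf]
      intro lam hl hlam
      rw [← E_nfin (hl := hl), mem_nfin_iff]
      exact ⟨(hB lam hl hlam).1, sub_nall_fn B⟩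
    exact exists_index h1
  have hBS : ∀ (lam : RP I → Prop) (hl : IsUF lam), lam (gen q) →
      val hl B = val hl (nchk B.fn (S : Set B.ty)) := fun lam hl h => val_eq.2 (hl.mono hS h)
  -- the neighbourhoods
  obtain ⟨q', hq', hd⟩ := meet_finset S q
    (fun i q' => ∃ (F : Finset I) (k : Fin m), Fc q' (fun _ E v =>
      Nb E (v 0) (v 1) (v 2) (v 3) (v 4) (v 5) (v 6))
      (ps [nA I, nG I, τ, B.fn i, natB (k : ℕ), pnt (s k), nchk pnt (F : Set I)]))
    (fun i q r hd hr => by
      obtain ⟨F, k, h⟩ := hd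
      exact ⟨F, k, h.mono hr⟩)
    (by
      intro i hi q₁ hq₁
      -- decide the index
      obtain ⟨q₂, hq₂, k, hk⟩ : ∃ q₂ ≤ q₁, ∃ k : Fin m, Fc q₂ (fun _ E v => ∃ V y,
          IsPair E (v 0) (v 1) V ∧ E V (v 2) ∧ App E (v 3) (v 1) y ∧ E y V)
          (ps [B.fn i, natB (k : ℕ), τ, tup s]) := by
        obtain ⟨x, hx⟩ := exists_witness (Q := fun _ E v => ∃ V y,
            IsPair E (v 1) (v 0) V ∧ E V (v 2) ∧ App E (v 3) (v 0) y ∧ E y V)
          (by repeat' (with_reducible first | apply IsPair.fo | apply App.fo | apply FO.mem | apply FO.ex | apply FO.and))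
          (ps [B.fn i, τ, tup s]) (gen q₁) (by
            intro lam hl hlam
            have hlq := hl.mono (gen_mono hq₁) hlam
            obtain ⟨x, V, y, h1, h2, h3, h4⟩ :=
              (hB lam hl (hl.mono (gen_mono hq) hlq)).2.1 (val hl (B.fn i)) (by
                change E hl (val hl (B.fn i)) (val hl B)
                rw [hBS lam hl hlq]
                exact E_nchk_finset.2 ⟨i, hi, rfl⟩)
            exact ⟨x, V, y, h1, h2, h3, h4⟩)
        have h1 : gen q₁ ≤ ⨆ k : Fin m, beq x (natB (k : ℕ)) := by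
          rw [le_iff_uf]
          intro lam hl hlam
          obtain ⟨V, y, _, _, h3, _⟩ := hx lam hl hlam
          have h4 : E hl (val hl x) (val hl (natB m)) := ((isMap_tup s).mem h3).1
          obtain ⟨k, hk, h5⟩ := E_natB.1 h4
          exact hl.mono (le_iSup (fun k : Fin m => beq x (natB (k : ℕ))) ⟨k, hk⟩) (val_eq.1 h5)
        obtain ⟨q₂, hq₂, k, hk⟩ := exists_index h1
        refine ⟨q₂, hq₂, k, fun lam hl hlam => ?_⟩
        have h2 : val hl x = val hl (natB (k : ℕ)) := val_eq.2 (hl.mono hk hlam)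
        have h3 : ∃ V y, IsPair (E hl) (val hl (B.fn i)) (val hl x) V ∧ E hl V (val hl τ) ∧
            App (E hl) (val hl (tup s)) (val hl x) y ∧ E hl y V :=
          hx lam hl (hl.mono (gen_mono hq₂) hlam)
        rw [h2] at h3
        exact h3
      -- a finite set of coordinates
      obtain ⟨F, hF⟩ := exists_witness (Q := fun _ E v => IsFin E (v 0) ∧ Sub E (v 0) (v 1) ∧
          Nb E (v 1) (v 2) (v 3) (v 4) (v 5) (v 6) (v 0))
        (by repeat' (with_reducible first | apply IsFin.fo | apply Nb.fo | apply Sub.fo | apply FO.and))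
        (ps [nA I, nG I, τ, B.fn i, natB (k : ℕ), pnt (s k)]) (gen q₂) (by
          intro lam hl hlam
          obtain ⟨V, y, h1, h2, h3, h4⟩ := hk lam hl hlam
          have h5 : y = val hl (pnt (s k)) := (isMap_tup s).uniq h3 (app_tup.2 rfl)
          have h6 := (hp lam hl (hl.mono (gen_mono
            (hq₂.trans (hq₁.trans (hq.trans hr)))) hlam)).1
          obtain ⟨F, hF1, hF2, hF3⟩ := ((h6 V).1 h2).2 y h4
          rw [h5] at hF3
          exact ⟨F, hF1, hF2, V, h1, h2, hF3⟩)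
      have h1 : gen q₂ ≤ ⨆ S : Finset I, beq F (nchk pnt (S : Set I)) := by
        rw [le_iff_uf]
        intro lam hl hlam
        rw [← E_nfin (hl := hl), mem_nfin_iff]
        exact ⟨(hF lam hl hlam).1, (hF lam hl hlam).2.1⟩
      obtain ⟨q₃, hq₃, F', hF'⟩ := exists_index h1
      refine ⟨q₃, hq₃.trans hq₂, F', k, fun lam hl hlam => ?_⟩
      have h2 : val hl F = val hl (nchk pnt (F' : Set I)) := val_eq.2 (hl.mono hF' hlam)
      have h3 : Nb (E hl) (val hl (nA I)) (val hl (nG I)) (val hl τ) (val hl (B.fn i))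
          (val hl (natB (k : ℕ))) (val hl (pnt (s k))) (val hl F) :=
        (hF lam hl (hl.mono (gen_mono hq₃) hlam)).2.2
      rw [h2] at h3
      exact h3)
  choose! F hF using hd
  refine ⟨q', hq'.trans hq, S.biUnion F, U, ?_, ?_⟩
  · exact fun lam hl hlam => (hU lam hl (hl.mono (gen_mono (hq'.trans hq)) hlam)).1
  · intro q₁ hq₁ s' hs' hT
    intro lam hl hlam
    have hlq' := hl.mono (gen_mono hq₁) hlam
    have hlq := hl.mono (gen_mono hq') hlq'
    refine (hB lam hl (hl.mono (gen_mono hq) hlq)).2.2 _ (hT lam hl hlam) ?_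
    intro b hb
    have hb' : E hl b (val hl (nchk B.fn (S : Set B.ty))) := by
      rw [← hBS lam hl hlq]
      exact hb
    obtain ⟨i, hi, rfl⟩ := E_nchk_finset.1 hb'
    obtain ⟨k, hk⟩ := hF i hi
    obtain ⟨V, h1, h2, h3⟩ := hk lam hl hlq'
    refine ⟨val hl (natB (k : ℕ)), V, val hl (pnt (s' k)), h1, h2, app_tup.2 rfl,
      h3 _ (E_nall_c _) fun a ha => ?_⟩
    obtain ⟨a', ha', rfl⟩ := E_nchk_finset.1 ha
    obtain ⟨n, h4, h5⟩ := hs' k a' (Finset.mem_biUnion.2 ⟨i, hi, ha'⟩)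
    exact sameVal_of hlam h4 h5

/-- No bad family for standard `m`. -/
theorem not_bad {lam : RP I → Prop} (hl : IsUF lam) (m : ℕ) (τ T c : X hl) :
    ¬ BadC (E hl) (val hl (omB _)) (val hl (nA I)) (val hl (nG I)) τ (val hl (natB m)) T c := by
  classical
  intro hbad
  obtain ⟨τ, rfl⟩ := exists_name τ
  obtain ⟨T, rfl⟩ := exists_name T
  obtain ⟨c, rfl⟩ := exists_name c
  obtain ⟨p, hp⟩ := Fc.exists_of (Q := fun _ E v => BadC E (v 0) (v 1) (v 2) (v 3) (v 4) (v 5)
      (v 6)) (v := ps [omB _, nA I, nG I, τ, natB m, T, c]) (BadC.fo 0 1 2 3 4 5 6) hl hbad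
  clear hbad hl lam
  have hp' : ∀ (lam : RP I → Prop) (hl : IsUF lam), lam (gen p) →
      BadC (E hl) (val hl (omB _)) (val hl (nA I)) (val hl (nG I)) (val hl τ) (val hl (natB m))
        (val hl T) (val hl c) := hp
  obtain ⟨D, hDA, hDc, hD⟩ := exists_countable
    {t : Tri I m | t.1 ≤ p ∧ ∃ U, Good T c U t.1 t.2.1 t.2.2}
  have h1 : ∀ d : D, ∃ U, Good T c U d.1.1 d.1.2.1 d.1.2.2 := fun d => (hDA d.2).2
  choose U hU using h1
  have hcount : Countable D := hDc.to_subtype
  let c' : BSet (RP I) := nsub U fun d => gen d.1.1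
  obtain ⟨lam, hl, hlam⟩ := exists_uf p
  refine (hp' lam hl hlam).2.2.2.2 ⟨val hl c', ?_, isCtb_nsub U _, ?_⟩
  · intro O hO
    refine all_nsub (Q := fun _ E v => E (v 0) (v 1)) (v := ps [c]) (FO.mem 0 1)
      ⊤ ?_ hl hl.top hO
    intro d lam hl _ hd
    exact (hU d).1 lam hl hd
  · intro f hf
    refine all_tup (m := m) (Q := fun _ E v => E (v 0) (v 1) → ∃ O, E O (v 2) ∧ E (v 0) O)
      (v := ps [T, c'])
      (by repeat' (with_reducible first | apply FO.mem | apply FO.imp | apply FO.ex | apply FO.and))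
      (gen p) ?_ hl hlam ((hp' lam hl hlam).2.1 f hf) hf
    intro s lam hl hlam hsT
    by_contra hcon
    obtain ⟨r, hr, hrf⟩ := Fc.of_true (Q := fun _ E v => E (v 0) (v 1) ∧
        ¬ ∃ O, E O (v 2) ∧ E (v 0) O) (v := ps [tup s, T, c'])
      (by repeat' (with_reducible first | apply FO.mem | apply FO.not | apply FO.ex | apply FO.and))
      hl hlam ⟨hsT, hcon⟩
    obtain ⟨r', hr', F, U', hgood⟩ := exists_good hp' hr (s := s)
      (fun lam hl h => (hrf lam hl h).1)
    obtain ⟨t', ht'D, y, hy, hs1, hs2, hval⟩ := hD (r', s, F) ⟨hr'.trans hr, U', hgood⟩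
    obtain ⟨q, hq1, hq2, hq3⟩ := Cond.exists_common r' t'.1 hy hs1 hs2
      (Finset.univ.biUnion fun k : Fin m => t'.2.2.image (fun a => (s k, a)) ∪
        t'.2.2.image fun a => (t'.2.1 k, a))
    obtain ⟨lam, hl, hlam⟩ := exists_uf q
    have hlr := hl.mono (gen_mono (hq1.trans hr')) hlam
    refine (hrf lam hl hlr).2 ⟨val hl (U ⟨t', ht'D⟩), ?_, ?_⟩
    · exact E_nsub_of (c := U) (w := fun d => gen d.1.1) ⟨t', ht'D⟩ (hl.mono (gen_mono hq2) hlam)
    · refine (hU ⟨t', ht'D⟩).2 q hq2 s (fun k a ha => ⟨y (t'.2.1 k) a, ?_, ?_⟩)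
        (fun lam hl h => (hrf lam hl (hl.mono (gen_mono (hq1.trans hr')) h)).1) lam hl hlam
      · exact hq3 (t'.2.1 k, a) (Finset.mem_biUnion.2 ⟨k, Finset.mem_univ _,
          Finset.mem_union_right _ (Finset.mem_image_of_mem _ ha)⟩)
      · have h2 := hq3 (s k, a) (Finset.mem_biUnion.2 ⟨k, Finset.mem_univ _,
          Finset.mem_union_left _ (Finset.mem_image_of_mem _ ha)⟩)
        rw [← hval k a ha]
        exact h2

/-- **All finite powers are hereditarily Lindelöf.** -/
theorem powHL {lam : RP I → Prop} (hl : IsUF lam) {τ : X hl}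
    (hτ : IsTau (E hl) (val hl (nA I)) (val hl (nG I)) τ) :
    PowHL (E hl) (val hl (omB _)) (val hl (nA I)) τ := by
  intro n T hn hT c hc hcov
  by_contra hcon
  refine all_nat (Q := fun _ E v => ¬ ∃ τ T c, BadC E (v 1) (v 2) (v 3) τ (v 0) T c)
    (v := ps [omB _, nA I, nG I])
    (by repeat' (with_reducible first | apply BadC.fo | apply FO.not | apply FO.ex))
    ⊤ ?_ hl hl.top hn ⟨τ, T, c, hτ, hT, hc, hcov, hcon⟩
  rintro m lam hl _ ⟨τ, T, c, h⟩
  exact not_bad hl m τ T c h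

end CPF
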