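import Pool.Agent.W_c26d8e_h88.Base

/-!
# The topology (MP_c26d8e_gt)
-/

namespace CPF

open IM IM.BSet BVM TKF Cardinal

/-- The index set exists: the first uncountable ordinal. -/
theorem exists_idx : ∃ I : Type, Nonempty (Idx I) := by
  let I : Type := (ℵ₁ : Cardinal.{0}).ord.ToType
  have hmk : #I = ℵ₁ := mk_ord_toType _
  have hI : ∀ i : I, (Set.Iic i).Countable := by
    intro i
    have h1 : (Set.Iio i).Countable := by
      rw [← le_aleph0_iff_set_countable, ← lt_aleph_one_iff]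
      exact lt_of_lt_of_eq (mk_Iio_lt i (by rw [hmk]; simp [I])) hmk
    have : Set.Iic i = insert i (Set.Iio i) := Set.Iio_insert.symm
    rw [this]
    exact h1.insert i
  have hunc : ¬ (Set.univ : Set I).Countable := by
    rw [← le_aleph0_iff_set_countable, ← lt_aleph_one_iff, mk_univ, hmk]
    exact lt_irrefl _
  have h1 : ∀ a : I, ∃ f : I → ℕ, Set.InjOn f (Set.Iic a) := fun a =>
    Set.countable_iff_exists_injOn.1 (hI a)
  choose e he using h1
  have h2 : #I ≤ #(Set ℕ) := by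
    rw [hmk, mk_set, mk_nat, two_power_aleph0]
    exact aleph_one_le_continuum
  obtain ⟨g⟩ : Nonempty (I ↪ Set ℕ) := h2
  exact ⟨I, ⟨{ e := e, e_inj := he, ctb := hI, unc := hunc, cd := g, cd_inj := g.injective }⟩⟩

variable {I : Type} [Idx I]

section fin

variable {D : Type} [CompleteBooleanAlgebra D] {lam : D → Prop} {hl : IsUF lam}

/-- Finite subsets of a standard family. -/
theorem all_fin {ι : Type} {c : ι → BSet D}
    {Q : ∀ X : Type 1, (X → X → Prop) → (ℕ → X) → Prop} (hQ : FO Q)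
    {v : ℕ → BSet D} (a : D)
    (h : ∀ (S : Finset ι) (lam : D → Prop) (hl : IsUF lam), lam a →
      Q (X hl) (E hl) (fun n' => val hl (cons (nchk c (S : Set ι)) v n')))
    {lam : D → Prop} (hl : IsUF lam) (ha : lam a) {x : X hl}
    (hx : IsFin (E hl) x) (hx' : Sub (E hl) x (val hl (nall c))) :
    Q (X hl) (E hl) (cons x fun n => val hl (v n)) :=
  all_nall (c := fun S : Finset ι => nchk c (S : Set ι)) hQ a h hl ha (mem_nfin_iff.2 ⟨hx, hx'⟩)

/-- Unions of two finite subsets of a standard family. -/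
theorem fin_union {ι : Type} {c : ι → BSet D} {F F' : X hl} (h1 : IsFin (E hl) F)
    (h2 : Sub (E hl) F (val hl (nall c))) (h3 : IsFin (E hl) F')
    (h4 : Sub (E hl) F' (val hl (nall c))) :
    ∃ H, IsFin (E hl) H ∧ Sub (E hl) H (val hl (nall c)) ∧ ∀ z, E hl z H ↔ E hl z F ∨ E hl z F' := by
  classical
  refine all_fin (c := c) (Q := fun _ E v => ∀ F', IsFin E F' → Sub E F' (v 1) →
      ∃ H, IsFin E H ∧ Sub E H (v 1) ∧ ∀ z, E z H ↔ E z (v 0) ∨ E z F') (v := ps [nall c])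
    (by repeat' (with_reducible first | apply IsFin.fo | apply Sub.fo | apply FO.mem | apply FO.and | apply FO.or | apply FO.iff | apply FO.imp | apply FO.all | apply FO.ex))
    ⊤ ?_ hl hl.top h1 h2 F' h3 h4
  intro S lam hl _ F' h3 h4
  refine all_fin (c := c) (Q := fun _ E v =>
      ∃ H, IsFin E H ∧ Sub E H (v 1) ∧ ∀ z, E z H ↔ E z (v 2) ∨ E z (v 0))
    (v := ps [nall c, nchk c (S : Set ι)])
    (by repeat' (with_reducible first | apply IsFin.fo | apply Sub.fo | apply FO.mem | apply FO.and | apply FO.or | apply FO.iff | apply FO.imp | apply FO.all | apply FO.ex))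
    ⊤ ?_ hl hl.top h3 h4
  intro S' lam hl _
  refine ⟨val hl (nchk c ((S ∪ S' : Finset ι) : Set ι)), isFin_nchk _, nchk_sub_nall, fun z => ?_⟩
  change E hl z (val hl (nchk c ((S ∪ S' : Finset ι) : Set ι))) ↔
    E hl z (val hl (nchk c (S : Set ι))) ∨ E hl z (val hl (nchk c (S' : Set ι)))
  rw [E_nchk_finset, E_nchk_finset, E_nchk_finset]
  constructor
  · rintro ⟨i, hi, h⟩
    rcases Finset.mem_union.1 hi with hi | hi
    · exact Or.inl ⟨i, hi, h⟩
    · exact Or.inr ⟨i, hi, h⟩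
  · rintro (⟨i, hi, h⟩ | ⟨i, hi, h⟩)
    · exact ⟨i, Finset.mem_union_left _ hi, h⟩
    · exact ⟨i, Finset.mem_union_right _ hi, h⟩

end fin

section tau

variable {lam : RP I → Prop} {hl : IsUF lam}

/-- The topology exists. -/
theorem exists_tau (hl : IsUF lam) :
    ∃ τ, IsTau (E hl) (val hl (nA I)) (val hl (nG I)) τ := by
  obtain ⟨b, hb⟩ := ax_powerset (val hl (nA I))
  obtain ⟨τ, hτ⟩ := exists_sep (hl := hl) (Q := fun _ E v => ∀ x, E x (v 0) → ∃ F, IsFin E F ∧
      Sub E F (v 1) ∧ ∀ y, E y (v 1) → (∀ a, E a F → SameVal E (v 2) x y a) → E y (v 0))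
    (by repeat' (with_reducible first | apply SameVal.fo | apply IsFin.fo | apply Sub.fo | apply FO.mem | apply FO.and | apply FO.iff | apply FO.imp | apply FO.all | apply FO.ex))
    (fun n => val hl (ps [nA I, nG I] n)) b
  refine ⟨τ, fun O => ?_⟩
  rw [hτ, hb]
  exact Iff.rfl

theorem sameVal_symm {x y a : X hl} (h : SameVal (E hl) (val hl (nG I)) x y a) :
    SameVal (E hl) (val hl (nG I)) y x a := by
  obtain ⟨n, h1, h2⟩ := h
  exact ⟨n, h2, h1⟩

theorem sameVal_trans {x y z a : X hl} (h : SameVal (E hl) (val hl (nG I)) x y a)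
    (h' : SameVal (E hl) (val hl (nG I)) y z a) : SameVal (E hl) (val hl (nG I)) x z a := by
  obtain ⟨n, h1, h2⟩ := h
  obtain ⟨m, h3, h4⟩ := h'
  rw [gval_uniq h3 h2] at h4
  exact ⟨n, h1, h4⟩

variable {τ : X hl}

theorem isTop_tau (hτ : IsTau (E hl) (val hl (nA I)) (val hl (nG I)) τ) :
    IsTop (E hl) (val hl (nA I)) τ := by
  refine ⟨fun O hO => ((hτ O).1 hO).1, ?_, ?_, ?_⟩
  · rw [hτ]
    refine ⟨fun z hz => hz, fun x _ => ?_⟩
    obtain ⟨F, hF, hF'⟩ := exists_finset (hl := hl) (∅ : Finset Unit) fun _ => x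
    exact ⟨F, hF, fun z hz => by
      obtain ⟨i, hi, _⟩ := (hF' z).1 hz
      exact absurd hi (Finset.notMem_empty i), fun y hy _ => hy⟩
  · intro O O' P hO hO' hP
    rw [hτ] at hO hO' ⊢
    refine ⟨fun x hx => hO.1 x ((hP x).1 hx).1, fun x hx => ?_⟩
    obtain ⟨F, h1, h2, h3⟩ := hO.2 x ((hP x).1 hx).1
    obtain ⟨F', h1', h2', h3'⟩ := hO'.2 x ((hP x).1 hx).2
    obtain ⟨H, hH1, hH2, hH3⟩ := fin_union h1 h2 h1' h2'
    exact ⟨H, hH1, hH2, fun y hy hs => (hP y).2
      ⟨h3 y hy fun a ha => hs a ((hH3 a).2 (Or.inl ha)),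
        h3' y hy fun a ha => hs a ((hH3 a).2 (Or.inr ha))⟩⟩
  · intro c P hc hP
    rw [hτ]
    refine ⟨fun x hx => ?_, fun x hx => ?_⟩
    · obtain ⟨O, hO, hxO⟩ := (hP x).1 hx
      exact ((hτ O).1 (hc O hO)).1 x hxO
    · obtain ⟨O, hO, hxO⟩ := (hP x).1 hx
      obtain ⟨F, h1, h2, h3⟩ := ((hτ O).1 (hc O hO)).2 x hxO
      exact ⟨F, h1, h2, fun y hy hs => (hP y).2 ⟨O, hO, h3 y hy hs⟩⟩

/-- Basic open sets given by one coordinate. -/
theorem exists_coord_nb (hτ : IsTau (E hl) (val hl (nA I)) (val hl (nG I)) τ) {x a : X hl}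
    (ha : E hl a (val hl (nA I))) :
    ∃ O, E hl O τ ∧ ∀ y, E hl y O ↔ SameVal (E hl) (val hl (nG I)) x y a := by
  obtain ⟨x, rfl⟩ := exists_name x
  obtain ⟨a, rfl⟩ := exists_name a
  obtain ⟨O, hO⟩ := exists_sep (hl := hl) (Q := fun _ E v => SameVal E (v 1) (v 2) (v 0) (v 3))
    (SameVal.fo 1 2 0 3) (fun n => val hl (ps [nG I, x, a] n)) (val hl (nA I))
  have hO' : ∀ y, E hl y O ↔ SameVal (E hl) (val hl (nG I)) (val hl x) y (val hl a) := by
    intro y
    rw [hO]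
    constructor
    · exact fun h => h.2
    · intro h
      refine ⟨?_, h⟩
      obtain ⟨n, _, h2⟩ := h
      exact (gval_mem h2).1
  refine ⟨O, ?_, hO'⟩
  rw [hτ]
  refine ⟨fun y hy => ((hO y).1 hy).1, fun y hy => ?_⟩
  obtain ⟨F, hF, hF'⟩ := exists_sg (val hl a)
  refine ⟨F, hF, fun z hz => ?_, fun z _ hs => ?_⟩
  · rw [(hF' z).1 hz]
    exact ha
  · rw [hO'] at hy ⊢
    exact sameVal_trans hy (hs _ ((hF' _).2 rfl))

/-- Two points have different values at some coordinate. -/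
theorem exists_sep_coord {x y : X hl} (hx : E hl x (val hl (nA I)))
    (hy : E hl y (val hl (nA I))) (hxy : x ≠ y) :
    ∃ a, E hl a (val hl (nA I)) ∧ ¬ SameVal (E hl) (val hl (nG I)) x y a := by
  refine all_nall (c := (pnt : I → BSet (RP I))) (Q := fun _ E v => ∀ y, E y (v 1) → v 0 ≠ y →
      ∃ a, E a (v 1) ∧ ¬ SameVal E (v 2) (v 0) y a)
    (v := ps [nA I, nG I])
    (by repeat' (with_reducible first | apply SameVal.fo | apply FO.mem | apply FO.not | apply FO.eq | apply FO.and | apply FO.imp | apply FO.all | apply FO.ex))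
    ⊤ ?_ hl hl.top hx y hy hxy
  intro z lam hl _ y hy hxy
  refine all_nall (c := (pnt : I → BSet (RP I))) (Q := fun _ E v => v 2 ≠ v 0 →
      ∃ a, E a (v 1) ∧ ¬ SameVal E (v 3) (v 2) (v 0) a)
    (v := ps [nA I, pnt z, nG I])
    (by repeat' (with_reducible first | apply SameVal.fo | apply FO.mem | apply FO.not | apply FO.eq | apply FO.and | apply FO.imp | apply FO.all | apply FO.ex))
    ⊤ ?_ hl hl.top hy hxy
  intro z' lam hl _ hne
  have hzz : z ≠ z' := by
    rintro rfl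
    exact hne rfl
  obtain ⟨a, ha⟩ := exists_bound (I := I) (S := {z, z'}) (Set.toFinite _).countable
  have h1 : z < a := ha z (by simp)
  have h2 : z' < a := ha z' (by simp)
  refine ⟨val hl (pnt a), E_nall_c a, ?_⟩
  rintro ⟨n, h3, h4⟩
  have e1 := gval_uniq h3 (gval_det h1)
  have e2 := gval_uniq h4 (gval_det h2)
  have e3 : Idx.e a z = Idx.e a z' := natB_inj (hl := hl) (e1.symm.trans e2)
  exact hzz (Idx.e_inj a h1.le h2.le e3)

/-- The space is Hausdorff. -/
theorem isHaus_tau (hτ : IsTau (E hl) (val hl (nA I)) (val hl (nG I)) τ) :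
    IsHaus (E hl) (val hl (nA I)) τ := by
  refine ⟨isTop_tau hτ, fun x y hx hy hxy => ?_⟩
  obtain ⟨a, ha, hns⟩ := exists_sep_coord hx hy hxy
  obtain ⟨O, hO, hO'⟩ := exists_coord_nb hτ (x := x) ha
  obtain ⟨U, hU, hU'⟩ := exists_coord_nb hτ (x := y) ha
  refine ⟨O, U, hO, hU, (hO' x).2 (sameVal_refl hx ha), (hU' y).2 (sameVal_refl hy ha),
    fun z hz hz' => hns ?_⟩
  exact sameVal_trans ((hO' z).1 hz) (sameVal_symm ((hU' z).1 hz'))

end tau

end CPF
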