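import Pool.Agent.W_c26d8e_h88.Tau

/-!
# Tuples of points (MP_c26d8e_gt)
-/

namespace CPF

open IM IM.BSet BVM TKF

variable {I : Type} [Idx I]

theorem sub_nall_fn {D : Type} [CompleteBooleanAlgebra D] {lam : D → Prop} {hl : IsUF lam}
    (B : BSet D) : Sub (E hl) (val hl B) (val hl (nall B.fn)) := by
  intro z hz
  obtain ⟨z, rfl⟩ := exists_name z
  rw [E_val] at hz
  rw [E_nall]
  refine hl.mono ?_ hz
  unfold bmem
  exact iSup_mono fun i => inf_le_right

/-- A countable family with weights is countable. -/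
theorem isCtb_nsub {D : Type} [CompleteBooleanAlgebra D] {lam : D → Prop} {hl : IsUF lam}
    {ι : Type} [Countable ι] (c : ι → BSet D) (w : ι → D) :
    IsCtb (E hl) (val hl (omB D)) (val hl (nsub c w)) := by
  classical
  have h : ∃ f : ℕ → BSet D, ∀ i, ∃ n, f n = c i := by
    rcases isEmpty_or_nonempty ι with hι | hι
    · exact ⟨fun _ => natB 0, fun i => hι.elim i⟩
    · obtain ⟨e, he⟩ := exists_surjective_nat ι
      refine ⟨fun n => c (e n), fun i => ?_⟩
      obtain ⟨n, rfl⟩ := he i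
      exact ⟨n, rfl⟩
  obtain ⟨f, hf⟩ := h
  refine ⟨val hl (nseq f), fun n x y hx hy => (isMap_nseq f).uniq hx hy, fun x hx => ?_⟩
  refine all_nsub (Q := fun _ E v => ∃ n, E n (v 1) ∧ App E (v 2) n (v 0))
    (v := ps [omB D, nseq f])
    (by repeat' (with_reducible first | apply App.fo | apply FO.mem | apply FO.and | apply FO.ex))
    ⊤ ?_ hl hl.top hx
  intro i lam hl _ _
  obtain ⟨n, hn⟩ := hf i
  refine ⟨val hl (natB n), E_nall_c n, ?_⟩
  change App (E hl) (val hl (nseq f)) (val hl (natB n)) (val hl (c i))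
  rw [← hn]
  exact app_nseq f n

/-- The name of a tuple of points. -/
noncomputable def tup {m : ℕ} (s : Fin m → I) : BSet (RP I) :=
  nchk (fun i : Fin m × I => prB (natB (i.1 : ℕ)) (pnt i.2)) {i | i.2 = s i.1}

theorem disj_tup {m : ℕ} : Disj fun i : Fin m × I => prB (natB (i.1 : ℕ)) (pnt i.2) := by
  intro i j hij
  rw [beq_eq_bot_iff]
  intro lam hl h
  obtain ⟨h1, h2⟩ := prB_inj h
  have e1 : i.1 = j.1 := Fin.ext (natB_inj h1)
  have e2 : i.2 = j.2 := by
    by_contra hne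
    exact beq_eq_bot_iff.1 (disj_pnt _ _ hne) lam hl h2
  exact hij (Prod.ext e1 e2)

section

variable {lam : RP I → Prop} {hl : IsUF lam} {m : ℕ}

theorem pnt_inj {z z' : I} (h : val hl (pnt z) = val hl (pnt z')) : z = z' := by
  by_contra hne
  exact beq_eq_bot_iff.1 (disj_pnt _ _ hne) lam hl h

theorem app_tup {s : Fin m → I} {k : Fin m} {z : I} :
    App (E hl) (val hl (tup s)) (val hl (natB (k : ℕ))) (val hl (pnt z)) ↔ z = s k := by
  rw [app_val]
  exact E_nchk_c (i := (k, z)) disj_tup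

theorem isMap_tup (s : Fin m → I) :
    IsMap (E hl) (val hl (tup s)) (val hl (natB m)) (val hl (nA I)) := by
  constructor
  · intro p hp
    refine all_nall (c := fun i : Fin m × I => prB (natB (i.1 : ℕ)) (pnt i.2))
      (Q := fun _ E v => ∃ x y, IsPair E (v 0) x y ∧ E x (v 1) ∧ E y (v 2))
      (v := ps [natB m, nA I])
      (by repeat' (with_reducible first | apply IsPair.fo | apply FO.mem | apply FO.and | apply FO.ex))
      ⊤ ?_ hl hl.top (nchk_sub_nall p hp)
    intro i lam hl _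
    exact ⟨val hl (natB i.1), val hl (pnt i.2), isPair_val.2 rfl, E_natB.2 ⟨i.1, i.1.2, rfl⟩,
      E_nall_c i.2⟩
  · intro x hx
    obtain ⟨k, hk, rfl⟩ := E_natB.1 hx
    refine ⟨val hl (pnt (s ⟨k, hk⟩)), app_tup (k := ⟨k, hk⟩).2 rfl, fun y' hy' => ?_⟩
    have hyA : E hl y' (val hl (nA I)) := by
      obtain ⟨p, hp, hpf⟩ := hy'
      obtain ⟨y', rfl⟩ := exists_name y'
      refine all_nall (c := fun i : Fin m × I => prB (natB (i.1 : ℕ)) (pnt i.2))
        (Q := fun _ E v => IsPair E (v 0) (v 1) (v 2) → E (v 2) (v 3))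
        (v := ps [natB k, y', nA I])
        (by repeat' (with_reducible first | apply IsPair.fo | apply FO.mem | apply FO.imp))
        ⊤ ?_ hl hl.top (nchk_sub_nall p hpf) hp
      intro i lam hl _ hp
      have h2 : val hl (prB (natB i.1) (pnt i.2)) = val hl (prB (natB k) y') := isPair_val.1 hp
      change E hl (val hl y') (val hl (nA I))
      rw [← (prB_inj h2).2]
      exact E_nall_c i.2
    refine all_nall (c := (pnt : I → BSet (RP I)))
      (Q := fun _ E v => App E (v 1) (v 2) (v 0) → v 0 = v 3)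
      (v := ps [tup s, natB k, pnt (s ⟨k, hk⟩)])
      (by repeat' (with_reducible first | apply App.fo | apply FO.eq | apply FO.imp))
      ⊤ ?_ hl hl.top hyA hy'
    intro z lam hl _ hz
    have h3 : z = s ⟨k, hk⟩ := app_tup (k := ⟨k, hk⟩).1 hz
    rw [h3]
    rfl

/-- Every tuple in the model is a mixture of standard tuples. -/
theorem all_tup {Q : ∀ X : Type 1, (X → X → Prop) → (ℕ → X) → Prop} (hQ : FO Q)
    {v : ℕ → BSet (RP I)} (a : RP I)
    (h : ∀ (s : Fin m → I) (lam : RP I → Prop) (hl : IsUF lam), lam a →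
      Q (X hl) (E hl) (fun n' => val hl (cons (tup s) v n')))
    {lam : RP I → Prop} (hl : IsUF lam) (ha : lam a) {x : X hl}
    (hx : IsMap (E hl) x (val hl (natB m)) (val hl (nA I))) :
    Q (X hl) (E hl) (cons x fun n => val hl (v n)) := by
  obtain ⟨x, rfl⟩ := exists_name x
  rw [← comp_cons (val hl)]
  refine mix (c := tup (m := m)) hQ a h hl ha ?_
  have h1 : lam (tvq (IsMap.fo 0 1 2) (ps [x, natB m, nA I])) := (tvq_iff _ _ hl).2 hx
  refine hl.mono ?_ h1
  refine le_iSup_of_dense fun p hp => ?_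
  have h2 : Fc p (fun _ E v => IsMap E (v 0) (v 1) (v 2)) (ps [x, natB m, nA I]) := by
    intro lam hl hlam
    exact (tvq_iff (IsMap.fo 0 1 2) (ps [x, natB m, nA I]) hl).1 (hl.mono hp hlam)
  obtain ⟨q, hq, h3⟩ := meet_fin (ι := Fin m) p
    (fun k q => ∃ z, Fc q (fun _ E v => App E (v 0) (v 1) (v 2)) (ps [x, natB (k : ℕ), pnt z]))
    (fun k q r hd hr => hd.imp fun z h => h.mono hr)
    (fun k q hq => decide_value (κ := I) (c' := pnt) (e := nA I) (h2.mono hq)
      (fun lam hl _ => E_natB.2 ⟨k, k.2, rfl⟩) (fun lam hl _ z hz => hz))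
  choose s hs using h3
  refine ⟨q, hq, s, ?_⟩
  rw [← fc_eq_iff]
  intro lam hl hlam
  have hf : IsMap (E hl) (val hl x) (val hl (natB m)) (val hl (nA I)) :=
    h2 lam hl (hl.mono (gen_mono hq) hlam)
  have hg : IsMap (E hl) (val hl (tup s)) (val hl (natB m)) (val hl (nA I)) := isMap_tup s
  have key : ∀ k, E hl k (val hl (natB m)) → ∃ y, App (E hl) (val hl x) k y ∧
      App (E hl) (val hl (tup s)) k y := by
    intro k hkE
    obtain ⟨k, hk, rfl⟩ := E_natB.1 hkE
    exact ⟨val hl (pnt (s ⟨k, hk⟩)), hs ⟨k, hk⟩ lam hl hlam, app_tup (k := ⟨k, hk⟩).2 rfl⟩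
  change val hl x = val hl (tup s)
  refine ext_E fun p => ⟨fun hp => ?_, fun hp => ?_⟩
  · obtain ⟨k, y, hpxy, hk, _⟩ := hf.1 p hp
    obtain ⟨z, hz1, hz2⟩ := key k hk
    have h1 := hf.uniq ⟨p, hpxy, hp⟩ hz1
    obtain ⟨p', hp', hpg⟩ := hz2
    rw [← h1] at hp'
    rw [isPair_uniq hpxy hp']
    exact hpg
  · obtain ⟨k, y, hpxy, hk, _⟩ := hg.1 p hp
    obtain ⟨z, hz1, hz2⟩ := key k hk
    have h1 := hg.uniq ⟨p, hpxy, hp⟩ hz2
    obtain ⟨p', hp', hpg⟩ := hz1
    rw [← h1] at hp'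
    rw [isPair_uniq hpxy hp']
    exact hpg

end

open Classical in
/-- Common extensions. -/
theorem Cond.exists_common (p p' : Cond I) {y : I → I → ℕ} (hy : Adm y) (hp : Sat y p.1)
    (hp' : Sat y p'.1) (S : Finset (I × I)) :
    ∃ q, q ≤ p ∧ q ≤ p' ∧ ∀ s ∈ S, (s.1, s.2, y s.1 s.2) ∈ q.1 := by
  have h1 : Sat y ((p.1 ∪ p'.1) ∪ S.image fun s => (s.1, s.2, y s.1 s.2)) := by
    refine Sat.union (Sat.union hp hp') fun r hr => ?_
    obtain ⟨s, _, rfl⟩ := Finset.mem_image.1 hr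
    rfl
  exact ⟨⟨_, y, hy, h1⟩, Finset.subset_union_left.trans Finset.subset_union_left,
    Finset.subset_union_right.trans Finset.subset_union_left,
    fun s hs => Finset.mem_union_right _ (Finset.mem_image_of_mem _ hs)⟩

end CPF
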